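import Pool.Agent.Helper23_LAP.Stmts
import Pool.Agent.Helper23_LAP.Basic

/-!
# LAP: module COA (good coins)
-/

set_option autoImplicit false

namespace Pool.Agent.LAP.H7

open scoped Classical

variable {W U S ι : Type}

/-- a family of events, indexed by pairs of finite sets -/
def fam (P : ι → Finset W × Finset W) (A : ι → Set (U → S)) (Q Δ : Finset W) : Set (U → S) :=
  {ω | ∃ i, P i = (Q, Δ) ∧ ω ∈ A i}

/-- union, with classical decidability -/
noncomputable def cun (Q Δ : Finset W) : Finset W := Q ∪ Δ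

theorem mem_cun {Q Δ : Finset W} {w : W} : w ∈ cun Q Δ ↔ w ∈ Q ∨ w ∈ Δ := by
  unfold cun
  rw [Finset.mem_union]

theorem ev_fam [Fintype U] [Fintype S] {r : W → W → Prop} {L : ℕ} {loc : U → Finset W}
    {P : ι → Finset W × Finset W} {A : ι → Set (U → S)} (hP : Function.Injective P)
    (h : ∀ i, Ev r L loc (A i) (cun (P i).1 (P i).2)) (Q Δ : Finset W) :
    Ev r L loc (fam P A Q Δ) (cun Q Δ) := by
  by_cases hi : ∃ i, P i = (Q, Δ)
  · obtain ⟨i, hi⟩ := hi
    have h1 : fam P A Q Δ = A i := by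
      ext ω
      constructor
      · rintro ⟨j, hj, hω⟩
        have : j = i := hP (hj.trans hi.symm)
        rw [← this]
        exact hω
      · intro hω
        exact ⟨i, hi, hω⟩
    have h2 := h i
    rw [hi] at h2
    rw [h1]
    exact h2
  · left
    ext ω
    constructor
    · rintro ⟨j, hj, _⟩
      exact absurd ⟨j, hj⟩ hi
    · intro hω
      exact absurd hω (Set.notMem_empty ω)

theorem fam_not {P : ι → Finset W × Finset W} {A : ι → Set (U → S)} {ω : U → S}
    (h : ∀ Q Δ, ω ∉ fam P A Q Δ) (i : ι) : ω ∉ A i := by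
  intro hi
  exact h (P i).1 (P i).2 ⟨i, rfl, hi⟩

theorem deg_le [Fintype U] (loc : U → Finset W) (n : ℕ)
    (h : ∀ w, ∀ F : Finset U, (∀ u ∈ F, w ∈ loc u) → F.card ≤ n) (w : W) :
    (Finset.univ.filter fun u => w ∈ loc u).card ≤ n :=
  h w _ fun _ hu => (Finset.mem_filter.1 hu).2

theorem loc_card {α β : Type} {q : ℕ} (M : Fin q → Finset (α × β))
    (rep : Fin q → α × β → α × β) (sg : Fin q → α × β → Bool)
    (hc : ∀ c, Coin (M c) (rep c) (sg c)) (u : Fin q × (α × β)) : (locC M rep u).card ≤ 4 := by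
  have h1 : ((M u.1).filter fun l => rep u.1 l = u.2).card ≤ 2 := by
    have h2 : ((M u.1).filter fun l => rep u.1 l = u.2).card ≤ (Finset.univ : Finset Bool).card := by
      refine Finset.card_le_card_of_injOn (sg u.1) (fun _ _ => Finset.mem_coe.2 (Finset.mem_univ _))
        ?_
      intro l hl l' hl' hll
      rw [Finset.mem_coe, Finset.mem_filter] at hl hl'
      by_contra hne
      exact hc u.1 l hl.1 l' hl'.1 hne (hl.2.trans hl'.2.symm) hll
    simpa using h2
  unfold locC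
  refine (Finset.card_biUnion_le_card_mul _ _ 2 fun l _ => ?_).trans (by omega)
  exact Finset.card_le_two

theorem loc_deg {α β : Type} [Fintype α] [Fintype β] {q : ℕ} (M : Fin q → Finset (α × β))
    (rep : Fin q → α × β → α × β) (hM : ∀ c, PI (M c)) (w : α ⊕ β)
    (F : Finset (Fin q × (α × β))) (hF : ∀ u ∈ F, w ∈ locC M rep u) : F.card ≤ q := by
  have h2 : F.card ≤ (Finset.univ : Finset (Fin q)).card := by
    refine Finset.card_le_card_of_injOn Prod.fst (fun _ _ => Finset.mem_coe.2 (Finset.mem_univ _))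
      ?_
    intro u hu u' hu' huu
    have h3 := hF u hu
    have h4 := hF u' hu'
    obtain ⟨c, a⟩ := u
    obtain ⟨c', a'⟩ := u'
    have hcc : c = c' := huu
    subst hcc
    unfold locC at h3 h4
    rw [Finset.mem_biUnion] at h3 h4
    obtain ⟨l, hl, hw⟩ := h3
    obtain ⟨l', hl', hw'⟩ := h4
    rw [Finset.mem_filter] at hl hl'
    have hl1 : l = l' := by
      rcases w with x | y
      · have e1 : x = l.1 := by simpa using hw
        have e2 : x = l'.1 := by simpa using hw'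
        have e3 : l.2 = l'.2 := (hM c).1 x l.2 l'.2 (by rw [e1]; exact hl.1) (by rw [e2]; exact hl'.1)
        exact Prod.ext (e1.symm.trans e2) e3
      · have e1 : y = l.2 := by simpa using hw
        have e2 : y = l'.2 := by simpa using hw'
        have e3 : l.1 = l'.1 := (hM c).2 l.1 l'.1 y (by rw [e1]; exact hl.1) (by rw [e2]; exact hl'.1)
        exact Prod.ext e3 (e1.symm.trans e2)
    have h5 : rep c l = a := hl.2
    have h6 : rep c l' = a' := hl'.2
    rw [← h5, ← h6, hl1]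
  simpa using h2

theorem coa (hS : SLLStmt) (h1 : CN1Stmt) (h2 : CN2Stmt) (h3 : CN3Stmt) (h4 : CN4Stmt)
    (h5 : CN5Stmt) (h6 : CN6Stmt) : COAStmt := by
  intro k L q D δ η r T Rr ζ P P' hPrm α β _ _ E R R' X Y M rep sg hReg hRE hPre
  have c1 := h1 k L q D δ η r T Rr ζ P P' hPrm α β E R R' X Y M rep sg hPre
  have c2 := h2 k L q D δ η r T Rr ζ P P' hPrm α β E R R' X Y M rep sg hPre
  have c3 := h3 k L q D δ η r T Rr ζ P P' hPrm α β E R R' X Y M rep sg hPre
  have c4 := h4 k L q D δ η r T Rr ζ P P' hPrm α β E R R' X Y M rep sg hPre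
  have c5 := h5 k L q D δ η r T Rr ζ P P' hPrm α β E R R' X Y M rep sg hPre
  have c6 := h6 k L q D δ η r T Rr ζ P P' hPrm α β E R R' X Y M rep sg hPre hRE
  have hk4 : 10 ^ 4 ≤ k := by
    have e1 : (10 : ℝ) ^ 4 ≤ L := by exact_mod_cast hPrm.L4
    have e2 : (L : ℝ) ≤ (L : ℝ) ^ 19 :=
      le_self_pow₀ (by linarith) (by norm_num)
    have e3 : (10 : ℝ) ^ 4 ≤ k := e1.trans (e2.trans (hPrm.D1.trans hPrm.D2))
    exact_mod_cast e3
  let Ω : Type := Fin q × (α × β) → Bool
  let LQ : Type := {Q : Finset (α ⊕ β) // Lnk (sadj E) Q}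
  let PQ : LQ → Finset (α ⊕ β) × Finset (α ⊕ β) := fun Q => (Q.1, ∅)
  let Px : α → Finset (α ⊕ β) × Finset (α ⊕ β) := fun x => ({Sum.inl x}, ∅)
  let Py : β → Finset (α ⊕ β) × Finset (α ⊕ β) := fun y => ({Sum.inr y}, ∅)
  let Pa : {a // a ∈ R'} → Finset (α ⊕ β) × Finset (α ⊕ β) :=
    fun a => ({Sum.inl a.1.1}, {Sum.inr a.1.2})
  have hPQ : Function.Injective PQ := by
    intro Q Q' h
    exact Subtype.ext (congrArg Prod.fst h)
  have hPx : Function.Injective Px := by
    intro x x' h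
    have e1 : ({Sum.inl x} : Finset (α ⊕ β)) = {Sum.inl x'} := congrArg Prod.fst h
    exact Sum.inl_injective (Finset.singleton_injective e1)
  have hPy : Function.Injective Py := by
    intro x x' h
    have e1 : ({Sum.inr x} : Finset (α ⊕ β)) = {Sum.inr x'} := congrArg Prod.fst h
    exact Sum.inr_injective (Finset.singleton_injective e1)
  have hPa : Function.Injective Pa := by
    intro a a' h
    have e1 : ({Sum.inl a.1.1} : Finset (α ⊕ β)) = {Sum.inl a'.1.1} := congrArg Prod.fst h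
    have e2 : ({Sum.inr a.1.2} : Finset (α ⊕ β)) = {Sum.inr a'.1.2} := congrArg Prod.snd h
    have e3 := Sum.inl_injective (Finset.singleton_injective e1)
    have e4 := Sum.inr_injective (Finset.singleton_injective e2)
    exact Subtype.ext (Prod.ext e3 e4)
  let B : Fin q → Fin 8 → Finset (α ⊕ β) → Finset (α ⊕ β) → Set Ω := fun c => ![
    fam PQ fun Q => {ω : Ω | ¬
      (|dsc R' (dom (cu M rep sg ω c)) (ran (cu M rep sg ω c)) (D / 2)
          (clA E (L ^ 2) Q.1) (clB E (L ^ 2) Q.1) -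
        dsc R' (dom (M c)) (ran (M c)) D (clA E (L ^ 2) Q.1) (clB E (L ^ 2) Q.1) / 4| ≤
        1 / (L : ℝ) ^ 4 * cq E R (X c) (Y c) L Q.1 +
          (3 * (L : ℝ) ^ 11 + 1) * Q.1.card * D)},
    fam PQ fun Q => {ω : Ω | ¬
      (cq E R' (dom (M c)) (ran (M c)) L Q.1 / 4 ≤
        cq E R' (dom (cu M rep sg ω c)) (ran (cu M rep sg ω c)) L Q.1 +
        1 / (L : ℝ) ^ 4 * cq E R (X c) (Y c) L Q.1 + 10 * (L : ℝ) ^ 6 * Q.1.card * D)},
    fam PQ fun Q => {ω : Ω | ¬
      (((ran (M c) ∩ clB E (L ^ 2) Q.1).card : ℝ) / 2 ≤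
        (ran (cu M rep sg ω c) ∩ clB E (L ^ 2) Q.1).card +
        1 / (L : ℝ) ^ 4 * (Y c ∩ clB E (L ^ 2) Q.1).card + (L : ℝ) ^ 6 * Q.1.card)},
    fam PQ fun Q => {ω : Ω | ¬
      (((dom (M c) ∩ clA E (L ^ 2) Q.1).card : ℝ) / 2 ≤
        (dom (cu M rep sg ω c) ∩ clA E (L ^ 2) Q.1).card +
        1 / (L : ℝ) ^ 4 * (X c ∩ clA E (L ^ 2) Q.1).card + (L : ℝ) ^ 6 * Q.1.card)},
    fam Px fun x => {ω : Ω | ¬
      (((out R' x ∩ ran (M c)).card : ℝ) / 2 ≤
        (out R' x ∩ ran (cu M rep sg ω c)).card + 1 / (L : ℝ) ^ 4 * D)},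
    fam Px fun x => {ω : Ω | ¬
      (((out E x ∩ ran (cu M rep sg ω c)).card : ℝ) ≤
        (out E x ∩ Y c).card / 2 + 1 / (L : ℝ) ^ 4 * D)},
    fam Py fun y => {ω : Ω | ¬
      (((inn R' y ∩ dom (M c)).card : ℝ) / 2 ≤
        (inn R' y ∩ dom (cu M rep sg ω c)).card + 1 / (L : ℝ) ^ 4 * D)},
    fam Py fun y => {ω : Ω | ¬
      (((inn E y ∩ dom (cu M rep sg ω c)).card : ℝ) ≤
        (inn E y ∩ X c).card / 2 + 1 / (L : ℝ) ^ 4 * D)}]
  let B' : Fin 3 → Finset (α ⊕ β) → Finset (α ⊕ β) → Set Ω := ![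
    fam Px fun x => {ω : Ω | ¬
      ((((Finset.univ.filter fun c => x ∈ dom (cu M rep sg ω c)).card : ℕ) : ℝ) ≤
        (1 + 1 / (L : ℝ)) * (T / 2) + (L : ℝ) ^ 3)},
    fam Py fun y => {ω : Ω | ¬
      ((((Finset.univ.filter fun c => y ∈ ran (cu M rep sg ω c)).card : ℕ) : ℝ) ≤
        (1 + 1 / (L : ℝ)) * (T / 2) + (L : ℝ) ^ 3)},
    fam Pa fun a => {ω : Ω | ¬
      ((((Finset.univ.filter fun c => a.1.1 ∈ dom (cu M rep sg ω c) ∧
        a.1.2 ∈ ran (cu M rep sg ω c)).card : ℕ) : ℝ) ≤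
        (1 + 1 / (L : ℝ)) * (Rr / 4) + 2 * (L : ℝ) ^ 3)}]
  let Bad : (Fin q × Fin 8) ⊕ Fin 3 → Finset (α ⊕ β) → Finset (α ⊕ β) → Set Ω :=
    Sum.elim (fun p => B p.1 p.2) B'
  have hEv : ∀ j Q Δ, Ev (sadj E) L (locC M rep) (Bad j Q Δ) (cun Q Δ) := by
    have hun : ∀ Q : Finset (α ⊕ β), cun Q ∅ = Q := fun Q => by
      ext z
      rw [mem_cun]
      simp
    rintro (⟨c, t⟩ | t)
    · show ∀ Q Δ, Ev (sadj E) L (locC M rep) (B c t Q Δ) (cun Q Δ)
      fin_cases t
      · refine fun Q Δ => ev_fam (W := α ⊕ β) hPQ (fun i => ?_) Q Δ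
        have := c1 c i.1 i.2
        convert this using 1
        exact hun _
      · refine fun Q Δ => ev_fam (W := α ⊕ β) hPQ (fun i => ?_) Q Δ
        have := c2 c i.1 i.2
        convert this using 1
        exact hun _
      · refine fun Q Δ => ev_fam (W := α ⊕ β) hPQ (fun i => ?_) Q Δ
        have := (c3 c i.1 i.2).1
        convert this using 1
        exact hun _
      · refine fun Q Δ => ev_fam (W := α ⊕ β) hPQ (fun i => ?_) Q Δ
        have := (c3 c i.1 i.2).2
        convert this using 1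
        exact hun _
      · refine fun Q Δ => ev_fam (W := α ⊕ β) hPx (fun i => ?_) Q Δ
        have := ((c4 c).1 i).1
        convert this using 1
        exact hun _
      · refine fun Q Δ => ev_fam (W := α ⊕ β) hPx (fun i => ?_) Q Δ
        have := ((c4 c).1 i).2
        convert this using 1
        exact hun _
      · refine fun Q Δ => ev_fam (W := α ⊕ β) hPy (fun i => ?_) Q Δ
        have := ((c4 c).2 i).1
        convert this using 1
        exact hun _
      · refine fun Q Δ => ev_fam (W := α ⊕ β) hPy (fun i => ?_) Q Δ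
        have := ((c4 c).2 i).2
        convert this using 1
        exact hun _
    · show ∀ Q Δ, Ev (sadj E) L (locC M rep) (B' t Q Δ) (cun Q Δ)
      fin_cases t
      · refine fun Q Δ => ev_fam (W := α ⊕ β) hPx (fun i => ?_) Q Δ
        have := c5.1 i
        convert this using 1
        exact hun _
      · refine fun Q Δ => ev_fam (W := α ⊕ β) hPy (fun i => ?_) Q Δ
        have := c5.2 i
        convert this using 1
        exact hun _
      · refine fun Q Δ => ev_fam (W := α ⊕ β) hPa (fun i => ?_) Q Δ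
        have := c6 i.1 i.2
        convert this using 1
        ext z
        rw [mem_cun]
        simp [Pa]
  obtain ⟨ω, hω⟩ := hS (α ⊕ β) (Fin q × (α × β)) Bool ((Fin q × Fin 8) ⊕ Fin 3) (sadj E) k L
    (locC M rep) Bad (sadj_symm E) (fun u => (Reg.deg hReg u).le) (by omega) hPrm.L4 hPrm.k2
    (loc_card M rep sg hPre.cn)
    (fun w => (deg_le (W := α ⊕ β) (locC M rep) q (fun w F hF => loc_deg M rep hPre.mp w F hF)
      w).trans (hPrm.q1.trans (Nat.le_self_pow (by norm_num) k)))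
    (by
      rw [Fintype.card_sum, Fintype.card_prod, Fintype.card_fin, Fintype.card_fin,
        Fintype.card_fin]
      have e1 : q ≤ k := hPrm.q1
      have e2 : k * 11 ≤ k ^ 4 := by
        have e3 : 11 ≤ k ^ 3 := by
          calc 11 ≤ k := by omega
            _ ≤ k ^ 3 := Nat.le_self_pow (by norm_num) k
        calc k * 11 ≤ k * k ^ 3 := Nat.mul_le_mul_left k e3
          _ = k ^ 4 := by ring
      omega) (fun j Q Δ => hEv j Q Δ)
  have g : ∀ c t Q Δ, ω ∉ B c t Q Δ := fun c t Q Δ => hω (Sum.inl (c, t)) Q Δ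
  have g' : ∀ t Q Δ, ω ∉ B' t Q Δ := fun t Q Δ => hω (Sum.inr t) Q Δ
  refine ⟨ω, fun c Q hQ => ⟨?_, ?_, ?_, ?_⟩, fun c => ⟨fun x => ⟨?_, ?_⟩, fun y => ⟨?_, ?_⟩⟩,
    fun x => ?_, fun y => ?_, fun a ha => ?_⟩
  · exact not_not.1 (fam_not (g c 0) ⟨Q, hQ⟩)
  · exact not_not.1 (fam_not (g c 1) ⟨Q, hQ⟩)
  · exact not_not.1 (fam_not (g c 2) ⟨Q, hQ⟩)
  · exact not_not.1 (fam_not (g c 3) ⟨Q, hQ⟩)
  · exact not_not.1 (fam_not (g c 4) x)
  · exact not_not.1 (fam_not (g c 5) x)
  · exact not_not.1 (fam_not (g c 6) y)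
  · exact not_not.1 (fam_not (g c 7) y)
  · exact not_not.1 (fam_not (g' 0) x)
  · exact not_not.1 (fam_not (g' 1) y)
  · exact not_not.1 (fam_not (g' 2) ⟨a, ha⟩)

end Pool.Agent.LAP.H7
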